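import Pool.Agent.H25.HK.Targets
import Pool.Agent.H27.TM.TargetsG

set_option autoImplicit false

open NumberField NumberField.InfinitePlace
open scoped nonZeroDivisors

namespace Pool.Agent.H50.TMB.NL

open Pool.Agent.H25.HK Pool.Agent.H27.TM
open Pool.Agent.H31.SW (DD dK)

variable (K : Type) [Field K] [NumberField K]

private theorem two_eq : (((Ideal.span {(2 : 𝓞 K)} : Ideal (𝓞 K)) : FI K)) =
    FractionalIdeal.spanSingleton (𝓞 K)⁰ (2 : K) := by
  rw [FractionalIdeal.coeIdeal_span_singleton]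
  congr 1

private theorem two_ne : (((Ideal.span {(2 : 𝓞 K)} : Ideal (𝓞 K)) : FI K)) ≠ 0 := by
  rw [two_eq, Ne, FractionalIdeal.spanSingleton_eq_zero_iff]
  exact two_ne_zero

private theorem norm_two : (FractionalIdeal.absNorm
    ((Ideal.span {(2 : 𝓞 K)} : Ideal (𝓞 K)) : FI K) : ℝ) = 2 ^ Module.finrank ℚ K := by
  rw [FractionalIdeal.coeIdeal_absNorm, Ideal.absNorm_span_singleton]
  have h : (Algebra.norm ℤ (2 : 𝓞 K)) = 2 ^ Module.finrank ℤ (𝓞 K) := by
    have h1 := Algebra.norm_algebraMap (R := ℤ) (S := 𝓞 K) (2 : ℤ)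
    simpa using h1
  rw [h, RingOfIntegers.rank]
  push_cast [Int.natAbs_pow]
  simp

theorem pf_NL (hDU : Pool.Agent.H25.HK.T_DU) : M_NL := by
  intro K _ _
  have h2 := two_ne K
  obtain ⟨h3, -, h5, h6, h7⟩ := hDU K _ h2
  have hn := norm_two K
  have hNN : NN K = du K ((Ideal.span {(2 : 𝓞 K)} : Ideal (𝓞 K)) : FI K) := rfl
  have hd : (0 : ℝ) < |(discr K : ℝ)| := abs_pos.2 (by exact_mod_cast NumberField.discr_ne_zero K)
  have hp : (0 : ℝ) < 2 ^ Module.finrank ℚ K := by positivity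
  refine ⟨h3, h2, fun y => ?_, fun y => ?_, fun L δ ξ hL hδ hξ => ?_⟩
  · unfold DD dK
    rw [hNN]
    rw [hn] at h7
    have h8 : (FractionalIdeal.absNorm (du K ((Ideal.span {(2 : 𝓞 K)} : Ideal (𝓞 K)) : FI K)) : ℝ)
        = (2 ^ Module.finrank ℚ K * |(discr K : ℝ)|)⁻¹ := by
      refine eq_inv_of_mul_eq_one_left ?_
      rw [← mul_assoc]
      exact h7
    rw [h8, div_inv_eq_mul]
  · unfold DD
    rw [hn]
  · obtain ⟨-, -, h5', -, -⟩ := hDU K L hL
    have e1 : L * du K L = du K 1 := by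
      rw [h5', ← mul_assoc, mul_inv_cancel₀ hL, one_mul]
    have m1 : (2 * δ) * ξ ∈ du K 1 := by
      rw [← e1]
      exact FractionalIdeal.mul_mem_mul hδ hξ
    have e2 : NN K = FractionalIdeal.spanSingleton (𝓞 K)⁰ ((2 : K)⁻¹) * du K 1 := by
      rw [hNN, h5, two_eq, FractionalIdeal.spanSingleton_inv]
    have e3 : δ * ξ = (2 : K)⁻¹ * ((2 * δ) * ξ) := by
      field_simp
    rw [e2, e3]
    exact FractionalIdeal.mul_mem_mul (FractionalIdeal.mem_spanSingleton_self _ _) m1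

end Pool.Agent.H50.TMB.NL
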